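import Pool.Agent.Helper16.SD.GoalsD

/-!
# Packet SD-D_ROU: units which are `p^k`-th powers in `E(μ_(p^n))`
-/

set_option autoImplicit false

namespace Pool.Agent.Helper20.SD.D_ROU

open NumberField

/-! ## the cohomology of a group of units of `ℤ/p^n` -/

theorem isUnit_natCast {p : ℕ} (hp : p.Prime) (n : ℕ) {u : ℕ} (hu : ¬ p ∣ u) :
    IsUnit (u : ZMod (p ^ n)) := by
  rw [ZMod.isUnit_iff_coprime]
  exact Nat.Coprime.pow_right n ((Nat.Prime.coprime_iff_not_dvd hp).2 hu).symm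

theorem divis {p : ℕ} (hp : p.Prime) (hp2 : p ≠ 2) (n α β : ℕ) (h1 : 1 < α)
    (hαp : ¬ p ∣ α) (hlt : α < p ^ n)
    (hS : ∀ s, p ^ n ∣ α ^ s - 1 → p ^ n ∣ (∑ i ∈ Finset.range s, α ^ i) * β) :
    ∃ t : ZMod (p ^ n), (β : ZMod (p ^ n)) = ((α : ZMod (p ^ n)) - 1) * t := by
  have : Fact p.Prime := ⟨hp⟩
  have hne : α - 1 ≠ 0 := by omega
  have hcast : ((α : ZMod (p ^ n)) - 1) = ((α - 1 : ℕ) : ZMod (p ^ n)) := by
    rw [Nat.cast_sub h1.le, Nat.cast_one]
  rw [hcast]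
  obtain ⟨v, w, hw, hv⟩ := Nat.exists_eq_pow_mul_and_not_dvd hne p hp.ne_one
  obtain ⟨w', hw'⟩ := (isUnit_natCast hp n hw).exists_right_inv
  have hw0 : 0 < w := by
    rcases Nat.eq_zero_or_pos w with h | h
    · rw [h] at hw
      exact absurd (dvd_zero p) hw
    · exact h
  have hvn : v < n := by
    have h2 : p ^ v ≤ α - 1 := by
      rw [hv]
      exact Nat.le_mul_of_pos_right _ hw0
    exact (Nat.pow_lt_pow_iff_right hp.one_lt).1 (by omega)
  rcases Nat.eq_zero_or_pos v with hv0 | hvpos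
  · refine ⟨w' * β, ?_⟩
    rw [hv, hv0, pow_zero, one_mul, ← mul_assoc, hw', one_mul]
  · have hd : p ∣ α - 1 := by
      rw [hv]
      exact Dvd.dvd.mul_right (dvd_pow_self p hvpos.ne') w
    have hs0 : p ^ (n - v) ≠ 0 := pow_ne_zero _ hp.ne_zero
    have hodd : Odd p := hp.odd_of_ne_two hp2
    have hval := padicValNat.pow_sub_pow (p := p) hodd (x := α) (y := 1) h1 hd hαp hs0
    rw [one_pow, padicValNat.prime_pow] at hval
    have hv1 : padicValNat p (α - 1) = v := by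
      rw [hv, padicValNat.mul (pow_ne_zero _ hp.ne_zero) hw0.ne', padicValNat.prime_pow,
        padicValNat.eq_zero_of_not_dvd hw, add_zero]
    rw [hv1, Nat.add_sub_cancel' hvn.le] at hval
    have hgt : 1 < α ^ p ^ (n - v) := Nat.one_lt_pow hs0 h1
    have hne2 : α ^ p ^ (n - v) - 1 ≠ 0 := by omega
    have hdvd : p ^ n ∣ α ^ p ^ (n - v) - 1 := by
      conv_lhs => rw [← hval]
      exact pow_padicValNat_dvd
    have h3 := hS _ hdvd
    set S := ∑ i ∈ Finset.range (p ^ (n - v)), α ^ i with hSdef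
    have h4 : (α - 1) * S = α ^ p ^ (n - v) - 1 := by
      zify [h1.le, hgt.le]
      rw [hSdef]
      push_cast
      exact mul_geom_sum (α : ℤ) _
    have hS0 : S ≠ 0 := by
      intro h0
      rw [h0, mul_zero] at h4
      exact hne2 h4.symm
    have hSv : padicValNat p S = n - v := by
      have h5 := congrArg (padicValNat p) h4
      rw [padicValNat.mul hne hS0, hv1, hval] at h5
      omega
    obtain ⟨v2, w2, hw2, hv2⟩ := Nat.exists_eq_pow_mul_and_not_dvd hS0 p hp.ne_one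
    have hw20 : w2 ≠ 0 := by
      rintro rfl
      exact hw2 (dvd_zero p)
    have hv3 : v2 = n - v := by
      rw [← hSv, hv2, padicValNat.mul (pow_ne_zero _ hp.ne_zero) hw20, padicValNat.prime_pow,
        padicValNat.eq_zero_of_not_dvd hw2, add_zero]
    have h6 : p ^ v ∣ w2 * β := by
      have h7 : p ^ n = p ^ (n - v) * p ^ v := by
        rw [← pow_add, Nat.sub_add_cancel hvn.le]
      rw [hv2, hv3, h7, mul_assoc] at h3
      exact Nat.dvd_of_mul_dvd_mul_left (pow_pos hp.pos _) h3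
    have h8 : p ^ v ∣ β :=
      (Nat.Coprime.pow_left v ((Nat.Prime.coprime_iff_not_dvd hp).2 hw2)).dvd_of_dvd_mul_left h6
    obtain ⟨β', hβ'⟩ := h8
    refine ⟨w' * β', ?_⟩
    rw [hβ', hv]
    push_cast
    rw [mul_assoc, ← mul_assoc (w : ZMod (p ^ n)), hw', one_mul]

theorem h1 {p : ℕ} (hp : p.Prime) (hp2 : p ≠ 2) (n : ℕ) {G : Type} [Group G]
    (a : G →* (ZMod (p ^ n))ˣ) (b : G → ZMod (p ^ n))
    (hb : ∀ g h, b (g * h) = b g + (a g : ZMod (p ^ n)) * b h) (h0 : ∀ g, a g = 1 → b g = 0) :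
    ∃ t, ∀ g, b g = ((a g : ZMod (p ^ n)) - 1) * t := by
  have : NeZero (p ^ n) := ⟨pow_ne_zero _ hp.ne_zero⟩
  have hcyc : IsCyclic (ZMod (p ^ n))ˣ := ZMod.isCyclic_units_of_prime_pow p hp hp2 n
  obtain ⟨⟨_, g₁, rfl⟩, hg₁⟩ := IsCyclic.exists_generator (α := a.range)
  have key : ∃ t, b g₁ = ((a g₁ : ZMod (p ^ n)) - 1) * t := by
    by_cases ha1 : a g₁ = 1
    · exact ⟨0, by rw [h0 g₁ ha1, mul_zero]⟩
    · have hn : n ≠ 0 := by
        rintro rfl
        apply ha1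
        apply Units.ext
        have : Subsingleton (ZMod (p ^ 0)) := by
          rw [pow_zero]
          infer_instance
        exact Subsingleton.elim _ _
      set α := (a g₁ : ZMod (p ^ n)).val with hα
      set β := (b g₁).val with hβ
      have hαc : (α : ZMod (p ^ n)) = (a g₁ : ZMod (p ^ n)) := ZMod.natCast_zmod_val _
      have hβc : (β : ZMod (p ^ n)) = b g₁ := ZMod.natCast_zmod_val _
      have hcop : Nat.Coprime α (p ^ n) := by
        rw [← ZMod.isUnit_iff_coprime, hαc]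
        exact Units.isUnit _
      have hαp : ¬ p ∣ α := by
        intro hd
        have h2 : p ∣ Nat.gcd α (p ^ n) := Nat.dvd_gcd hd (dvd_pow_self p hn)
        rw [hcop] at h2
        exact hp.one_lt.ne' (Nat.dvd_one.1 h2)
      have hαlt : α < p ^ n := ZMod.val_lt _
      have hα1 : 1 < α := by
        rcases Nat.lt_or_ge 1 α with h | h
        · exact h
        · exfalso
          interval_cases hh : α
          · exact hαp (dvd_zero p)
          · apply ha1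
            apply Units.ext
            rw [← hαc, Nat.cast_one, Units.val_one]
      have hpow : ∀ s : ℕ, b (g₁ ^ s) = (∑ i ∈ Finset.range s, (a g₁ : ZMod (p ^ n)) ^ i) * b g₁ := by
        intro s
        induction s with
        | zero =>
          rw [pow_zero, Finset.sum_range_zero, zero_mul]
          exact h0 1 (map_one a)
        | succ s ih =>
          rw [pow_succ', hb, ih, Finset.sum_range_succ']
          simp only [pow_succ', pow_zero]
          rw [← Finset.mul_sum]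
          ring
      obtain ⟨t, ht⟩ := divis hp hp2 n α β hα1 hαp hαlt (by
        intro s hs
        have h2 : ((α : ZMod (p ^ n)) ^ s) = 1 := by
          have h3 : ((α ^ s - 1 : ℕ) : ZMod (p ^ n)) = 0 := (ZMod.natCast_eq_zero_iff _ _).2 hs
          rw [Nat.cast_sub (Nat.one_le_pow _ _ (by omega)), Nat.cast_one, Nat.cast_pow,
            sub_eq_zero] at h3
          exact h3
        have h4 : a (g₁ ^ s) = 1 := by
          apply Units.ext
          rw [map_pow, Units.val_pow_eq_pow_val, ← hαc, h2, Units.val_one]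
        have h5 := hpow s
        rw [h0 _ h4] at h5
        apply (ZMod.natCast_eq_zero_iff _ _).1
        push_cast
        rw [hαc, hβc]
        exact h5.symm)
      rw [hαc, hβc] at ht
      exact ⟨t, ht⟩
  obtain ⟨t, ht⟩ := key
  refine ⟨t, ?_⟩
  let H : Subgroup G :=
    { carrier := {g | b g = ((a g : ZMod (p ^ n)) - 1) * t}
      mul_mem' := by
        intro g h hg hh
        change b (g * h) = ((a (g * h) : ZMod (p ^ n)) - 1) * t
        change b g = ((a g : ZMod (p ^ n)) - 1) * t at hg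
        change b h = ((a h : ZMod (p ^ n)) - 1) * t at hh
        rw [hb, hg, hh, map_mul, Units.val_mul]
        ring
      one_mem' := by
        change b 1 = ((a 1 : ZMod (p ^ n)) - 1) * t
        rw [h0 1 (map_one a), map_one, Units.val_one, sub_self, zero_mul]
      inv_mem' := by
        intro g hg
        change b g⁻¹ = ((a g⁻¹ : ZMod (p ^ n)) - 1) * t
        change b g = ((a g : ZMod (p ^ n)) - 1) * t at hg
        have h2 := hb g⁻¹ g
        rw [inv_mul_cancel, h0 1 (map_one a), hg] at h2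
        have h3 : (a g⁻¹ : ZMod (p ^ n)) * (a g : ZMod (p ^ n)) = 1 := by
          rw [← Units.val_mul, ← map_mul, inv_mul_cancel, map_one, Units.val_one]
        have h4 : b g⁻¹ = - ((a g⁻¹ : ZMod (p ^ n)) * (((a g : ZMod (p ^ n)) - 1) * t)) :=
          eq_neg_of_add_eq_zero_left h2.symm
        rw [h4]
        linear_combination (-t) * h3 }
  intro g
  obtain ⟨i, hi⟩ := Subgroup.mem_zpowers_iff.1 (hg₁ ⟨a g, g, rfl⟩)
  have hi' : a g₁ ^ i = a g := congrArg Subtype.val hi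
  have h2 : a (g₁ ^ (-i) * g) = 1 := by
    rw [map_mul, map_zpow, ← hi', ← zpow_add, neg_add_cancel, zpow_zero]
  have h3 : g₁ ^ (-i) * g ∈ H := by
    change b _ = ((a _ : ZMod (p ^ n)) - 1) * t
    rw [h0 _ h2, h2, Units.val_one, sub_self, zero_mul]
  have h4 : g₁ ^ i ∈ H := H.zpow_mem ht i
  have h5 := H.mul_mem h4 h3
  rwa [← mul_assoc, ← zpow_add, add_neg_cancel, zpow_zero, one_mul] at h5

/-! ## units -/

theorem mkUnit {F : Type} [Field F] (x : F) (hx : x ≠ 0) (h1 : IsIntegral ℤ x)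
    (h2 : IsIntegral ℤ x⁻¹) : ∃ u : (𝓞 F)ˣ, ((u : 𝓞 F) : F) = x := by
  refine ⟨⟨⟨x, h1⟩, ⟨x⁻¹, h2⟩, ?_, ?_⟩, rfl⟩
  · apply RingOfIntegers.ext
    exact mul_inv_cancel₀ hx
  · apply RingOfIntegers.ext
    exact inv_mul_cancel₀ hx

theorem t : Pool.Agent.Helper16.SD.D_ROU := by
  intro p hpf hp2 K _ _ E M _ _ _ _ hEM n hmu hfix k hkn e hy
  have hp : p.Prime := hpf.out
  obtain ⟨y, hyM, hye⟩ := hy
  have hN : NeZero (p ^ n) := ⟨pow_ne_zero _ hp.ne_zero⟩
  obtain ⟨ζ, hζ⟩ : ∃ ζ : AlgebraicClosure K, IsPrimitiveRoot ζ (p ^ n) :=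
    HasEnoughRootsOfUnity.exists_primitiveRoot (AlgebraicClosure K) (p ^ n)
  have he0 : (((e : (𝓞 E)ˣ) : E) : AlgebraicClosure K) ≠ 0 := by
    intro h
    have h2 : ((e : (𝓞 E)ˣ) : E) = 0 := by
      apply Subtype.ext
      exact h
    exact RingOfIntegers.coe_ne_zero_iff.2 e.ne_zero h2
  have hy0 : y ≠ 0 := by
    rintro rfl
    rw [zero_pow (pow_ne_zero _ hp.ne_zero)] at hye
    exact he0 hye.symm
  have hζ0 : ζ ≠ 0 := hζ.ne_zero (pow_ne_zero _ hp.ne_zero)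
  -- the cocycle
  have hex : ∀ g : E.fixingSubgroup, ∃ i : ℕ,
      ζ ^ i * y = (g : AlgebraicClosure K ≃ₐ[K] AlgebraicClosure K) y := by
    intro g
    have hg : (g : AlgebraicClosure K ≃ₐ[K] AlgebraicClosure K)
        (((e : (𝓞 E)ˣ) : E) : AlgebraicClosure K)
        = (((e : (𝓞 E)ˣ) : E) : AlgebraicClosure K) :=
      g.2 ⟨_, ((e : (𝓞 E)ˣ) : E).2⟩
    have h2 : ((g : AlgebraicClosure K ≃ₐ[K] AlgebraicClosure K) y / y) ^ (p ^ n) = 1 := by
      have h3 : ((g : AlgebraicClosure K ≃ₐ[K] AlgebraicClosure K) y / y) ^ (p ^ k) = 1 := by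
        rw [div_pow, ← map_pow, hye, hg, div_self he0]
      rw [← Nat.sub_add_cancel hkn, pow_add, mul_comm, pow_mul, h3, one_pow]
    obtain ⟨i, -, hi⟩ := hζ.eq_pow_of_pow_eq_one h2
    exact ⟨i, by rw [hi, div_mul_cancel₀ _ hy0]⟩
  choose b hb using hex
  set a : E.fixingSubgroup →* (ZMod (p ^ n))ˣ :=
    (hζ.autToPow K).comp E.fixingSubgroup.subtype with ha
  have haspec : ∀ g : E.fixingSubgroup, (g : AlgebraicClosure K ≃ₐ[K] AlgebraicClosure K) ζ
      = ζ ^ (a g : ZMod (p ^ n)).val := fun g => (hζ.autToPow_spec K _).symm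
  have hpow : ∀ i j : ℕ, ζ ^ i = ζ ^ j ↔ (i : ZMod (p ^ n)) = (j : ZMod (p ^ n)) := by
    intro i j
    rw [ZMod.natCast_eq_natCast_iff, hζ.eq_orderOf]
    exact (hζ.isOfFinOrder (pow_ne_zero _ hp.ne_zero)).pow_eq_pow_iff_modEq
  obtain ⟨t, ht⟩ := h1 hp hp2 n a (fun g => (b g : ZMod (p ^ n))) (by
    intro g h
    have h2 := hb (g * h)
    have h3 : ((g * h : E.fixingSubgroup) : AlgebraicClosure K ≃ₐ[K] AlgebraicClosure K) y
        = (g : AlgebraicClosure K ≃ₐ[K] AlgebraicClosure K)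
          ((h : AlgebraicClosure K ≃ₐ[K] AlgebraicClosure K) y) := rfl
    rw [h3, ← hb h, map_mul, map_pow, haspec, ← hb g, ← pow_mul, ← mul_assoc, ← pow_add] at h2
    have h4 := (hpow _ _).1 (mul_right_cancel₀ hy0 h2)
    change (b (g * h) : ZMod (p ^ n)) = _
    rw [h4]
    push_cast
    rw [ZMod.natCast_zmod_val]
    ring) (by
    intro g hg
    change (b g : ZMod (p ^ n)) = 0
    have h2 : (g : AlgebraicClosure K ≃ₐ[K] AlgebraicClosure K) ζ = ζ := by
      rw [haspec, hg, Units.val_one]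
      conv_rhs => rw [← pow_one ζ]
      rw [hpow, ZMod.natCast_zmod_val, Nat.cast_one]
    have h3 : (g : AlgebraicClosure K ≃ₐ[K] AlgebraicClosure K) y = y := by
      refine hfix _ (fun x hx => g.2 ⟨x, hx⟩) (fun ξ hξ => ?_) y hyM
      obtain ⟨i, -, hi⟩ := hζ.eq_pow_of_pow_eq_one hξ
      rw [← hi, map_pow, h2]
    have h4 := hb g
    rw [h3] at h4
    have h5 : ζ ^ b g = ζ ^ 0 := by
      rw [pow_zero]
      exact mul_right_cancel₀ hy0 (by rw [h4, one_mul])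
    rw [hpow, Nat.cast_zero] at h5
    exact h5)
  -- the correction
  set ξ₀ : AlgebraicClosure K := ζ ^ t.val with hξ₀
  have hξ₀0 : ξ₀ ≠ 0 := pow_ne_zero _ hζ0
  have hy'E : y / ξ₀ ∈ E := by
    rw [← InfiniteGalois.fixedField_fixingSubgroup E, IntermediateField.mem_fixedField_iff]
    intro g hg
    have h2 := hb ⟨g, hg⟩
    have h3 := haspec ⟨g, hg⟩
    have h4 : (b ⟨g, hg⟩ : ZMod (p ^ n)) = ((a ⟨g, hg⟩ : ZMod (p ^ n)) - 1) * t := ht ⟨g, hg⟩
    change ζ ^ b ⟨g, hg⟩ * y = g y at h2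
    change g ζ = ζ ^ (a ⟨g, hg⟩ : ZMod (p ^ n)).val at h3
    have h5 : ζ ^ b ⟨g, hg⟩ * ξ₀ = g ξ₀ := by
      rw [hξ₀, map_pow, h3, ← pow_add, ← pow_mul, hpow]
      push_cast
      rw [ZMod.natCast_zmod_val, ZMod.natCast_zmod_val, h4]
      ring
    rw [map_div₀, ← h2, ← h5]
    exact mul_div_mul_left _ _ (pow_ne_zero _ hζ0)
  set w₀ : E := ⟨y / ξ₀, hy'E⟩ with hw₀
  have hw₀0 : w₀ ≠ 0 := by
    intro h
    have h2 : y / ξ₀ = 0 := congrArg Subtype.val h
    exact div_ne_zero hy0 hξ₀0 h2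
  set x₀ : E := ((e : (𝓞 E)ˣ) : E) / w₀ ^ p ^ k with hx₀
  have heE : ((e : (𝓞 E)ˣ) : E) ≠ 0 := RingOfIntegers.coe_ne_zero_iff.2 e.ne_zero
  have hx₀0 : x₀ ≠ 0 := div_ne_zero heE (pow_ne_zero _ hw₀0)
  have hx₀v : (x₀ : AlgebraicClosure K) = ξ₀ ^ p ^ k := by
    change ((((e : (𝓞 E)ˣ) : E) : AlgebraicClosure K)) / (y / ξ₀) ^ p ^ k = ξ₀ ^ p ^ k
    rw [← hye, div_pow, div_div_eq_mul_div, mul_comm, mul_div_assoc,
      div_self (pow_ne_zero _ hy0), mul_one]
  have hx₀1 : x₀ ^ p ^ n = 1 := by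
    apply Subtype.ext
    change (x₀ : AlgebraicClosure K) ^ p ^ n = 1
    have h2 : t.val * (p ^ k * p ^ n) = p ^ n * (t.val * p ^ k) := by ring
    rw [hx₀v, hξ₀, ← pow_mul, ← pow_mul, h2, pow_mul, hζ.pow_eq_one, one_pow]
  have hpn : 0 < p ^ n := pow_pos hp.pos _
  have hpk : 0 < p ^ k := pow_pos hp.pos _
  have hx₀int : IsIntegral ℤ x₀ := by
    refine IsIntegral.of_pow hpn ?_
    rw [hx₀1]
    exact isIntegral_one
  have hx₀int' : IsIntegral ℤ x₀⁻¹ := by
    refine IsIntegral.of_pow hpn ?_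
    rw [inv_pow, hx₀1, inv_one]
    exact isIntegral_one
  have heint : IsIntegral ℤ ((e : (𝓞 E)ˣ) : E) := RingOfIntegers.isIntegral_coe _
  have heint' : IsIntegral ℤ (((e : (𝓞 E)ˣ) : E))⁻¹ := by
    have h2 : (((e : (𝓞 E)ˣ) : E))⁻¹ = (((e⁻¹ : (𝓞 E)ˣ) : 𝓞 E) : E) := by
      symm
      apply eq_inv_of_mul_eq_one_left
      have h3 : (((e⁻¹ : (𝓞 E)ˣ) : 𝓞 E)) * ((e : (𝓞 E)ˣ) : 𝓞 E) = 1 := by
        rw [← Units.val_mul, inv_mul_cancel, Units.val_one]
      exact congrArg (algebraMap (𝓞 E) E) h3 |>.trans (map_one _) |> fun h => by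
        rw [map_mul] at h
        exact h
    rw [h2]
    exact RingOfIntegers.isIntegral_coe _
  have hwpow : w₀ ^ p ^ k = ((e : (𝓞 E)ˣ) : E) * x₀⁻¹ := by
    rw [hx₀, inv_div, mul_div_assoc', mul_comm, mul_div_assoc, div_self heE, mul_one]
  have hwint : IsIntegral ℤ w₀ := by
    refine IsIntegral.of_pow hpk ?_
    rw [hwpow]
    exact heint.mul hx₀int'
  have hwint' : IsIntegral ℤ w₀⁻¹ := by
    refine IsIntegral.of_pow hpk ?_
    rw [inv_pow, hwpow, mul_inv, inv_inv]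
    exact heint'.mul hx₀int
  obtain ⟨ξ, hξ⟩ := mkUnit x₀ hx₀0 hx₀int hx₀int'
  obtain ⟨w, hw⟩ := mkUnit w₀ hw₀0 hwint hwint'
  refine ⟨ξ, w, ?_, ?_⟩
  · apply Units.ext
    apply RingOfIntegers.ext
    rw [Units.val_pow_eq_pow_val, Units.val_one]
    change (algebraMap (𝓞 E) E) (((ξ : (𝓞 E)ˣ) : 𝓞 E) ^ p ^ n) = (algebraMap (𝓞 E) E) 1
    rw [map_pow, map_one]
    exact (congrArg (· ^ p ^ n) hξ).trans hx₀1
  · apply Units.ext
    apply RingOfIntegers.ext
    rw [Units.val_mul, Units.val_pow_eq_pow_val]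
    change ((e : (𝓞 E)ˣ) : E) = (algebraMap (𝓞 E) E)
      (((ξ : (𝓞 E)ˣ) : 𝓞 E) * ((w : (𝓞 E)ˣ) : 𝓞 E) ^ p ^ k)
    rw [map_mul, map_pow]
    change ((e : (𝓞 E)ˣ) : E) = (((ξ : (𝓞 E)ˣ) : 𝓞 E) : E) * (((w : (𝓞 E)ˣ) : 𝓞 E) : E) ^ p ^ k
    rw [hξ, hw, hx₀, div_mul_cancel₀ _ (pow_ne_zero _ hw₀0)]

end Pool.Agent.Helper20.SD.D_ROU
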